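import Pool.Agent.Helper62.GL.FBridge

/-!
# Martin's Maximum, definable well-orders of the reals, and small ordinal definable sets

The universe of sets is `ZFSet`, a structure for the language of set theory `LSet` (one binary
relation symbol, read as true membership).  Ordinals are read as von Neumann ordinals
(`Ordinal.toZFSet`), and a real is a subset of `ω`.

The definitions used in the statement are in `Pool.Agent.Helper62.GL.FDefs` (`CtbCof`, `ProjStat`)
and `Pool.Agent.Helper62.GL.BDefs` (all others).

A set is called blurrily ordinal definable (`Blurry`) here if it belongs to an ordinal definable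
set with at most `ℵ₁` elements.
-/

set_option autoImplicit false

open Ordinal Cardinal

universe u

namespace Pool.Agent.Results.MP_6024a6_lc.BlurrilyDefinableReals

open Pool.Agent.Helper62.GL.BD

/-- **Main theorem.**  Under Martin's Maximum the following are equivalent:

1. some formula without parameters defines a well-order of the reals;
2. there is an ordinal definable function `r` from the reals to the ordinals which takes every value
   at most `ℵ₁` times;
3. every real belongs to an ordinal definable set with at most `ℵ₁` elements;
4. every real is definable from finitely many ordinals and an element of an ordinal definable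
   set with at most `ℵ₁` elements;
5. for stationarily many `γ < ω₂` of countable cofinality some countable cofinal subset of `γ`
   belongs to an ordinal definable set with at most `ℵ₁` elements;
6. some set `s` which belongs to an ordinal definable set with at most `ℵ₁` elements is projectively
   stationary in `[ω₂]^ω`, and so is its complement. -/
theorem result (h : MM.{u}) : List.TFAE [
    HasDefWO.{u},
    ∃ (G : ZFSet.{u}) (r : ZFSet.{u} → Ordinal.{u}), OrdDef ∅ G ∧
      (∀ z, z ∈ G ↔ ∃ x, x ⊆ (ω : Ordinal.{u}).toZFSet ∧ z = ZFSet.pair x (r x).toZFSet) ∧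
      ∀ γ, #{x : ZFSet.{u} // x ⊆ (ω : Ordinal.{u}).toZFSet ∧ r x = γ} ≤ ℵ_ 1,
    ∀ x : ZFSet.{u}, x ⊆ (ω : Ordinal.{u}).toZFSet → Blurry x,
    ∀ x : ZFSet.{u}, x ⊆ (ω : Ordinal.{u}).toZFSet → ∃ A, Blurry A ∧ OrdDef A x,
    StatIn {γ : Ordinal.{u} | γ.cof = ℵ₀ ∧ ∃ c, Blurry c ∧ CtbCof c γ} (ω_ 2),
    ∃ s, Blurry s ∧ ProjStat (fun x => x ∈ s) ∧ ProjStat (fun x : ZFSet.{u} => x ∉ s)] :=
  mainF h

end Pool.Agent.Results.MP_6024a6_lc.BlurrilyDefinableReals
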