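import Pool.Agent.Helper62.GL.BBridge

/-!
# Martin's Maximum, definable well-orders of the reals, and bounded families of cofinal maps

The universe of sets is `ZFSet`, a structure for the language of set theory `LSet` (one binary
relation symbol, read as true membership).  Ordinals are read as von Neumann ordinals
(`Ordinal.toZFSet`), and a real is a subset of `ω`.

All definitions used in the statement are in `Pool.Agent.Helper62.GL.BDefs`.

A set `X` with `Seqs γ X` is a nonempty set of (graphs of) strictly increasing cofinal maps from `ω`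
to `γ`.  It is bounded from above (`BddAb`) if some map `t` from `ω` to `γ` eventually dominates
every element of `X`, and bounded from below (`BddBe`) if every element of `X` eventually dominates
one and the same strictly increasing cofinal map.
-/

set_option autoImplicit false

open Ordinal Cardinal

universe u

namespace Pool.Agent.Results.MP_6024a6_lc.BoundedDefinableFamilies

open Pool.Agent.Helper62.GL.BD

/-- **Main theorem.**  Under Martin's Maximum the following are equivalent:

1. some formula without parameters defines a well-order of the reals;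
2. for every `γ < ω₂` of countable cofinality some strictly increasing cofinal map from `ω` to `γ` is
   ordinal definable;
3. for some regular uncountable cardinal `κ` and for stationarily many `γ < κ` of countable
   cofinality some nonempty ordinal definable set of strictly increasing cofinal maps from `ω` to `γ`
   is bounded from above, modulo finite sets;
4. the same with bounded from below;
5. the same with the condition that the set has at most `ℵ₁` elements;
6. some stationary and co-stationary subset of `ω₁` belongs to an ordinal definable set with at most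
   `ℵ₁` elements. -/
theorem result (h : MM.{u}) : List.TFAE [
    HasDefWO.{u},
    ∀ γ : Ordinal.{u}, γ < ω_ 2 → γ.cof = ℵ₀ →
      ∃ (c : ZFSet.{u}) (f : ℕ → Ordinal.{u}), OrdDef ∅ c ∧ CofSeq γ f ∧ IsGraph c f,
    ∃ κ : Cardinal.{u}, κ.IsRegular ∧ ℵ₀ < κ ∧
      StatIn {γ : Ordinal.{u} | γ.cof = ℵ₀ ∧ ∃ X, OrdDef ∅ X ∧ Seqs γ X ∧ BddAb γ X} κ.ord,
    ∃ κ : Cardinal.{u}, κ.IsRegular ∧ ℵ₀ < κ ∧
      StatIn {γ : Ordinal.{u} | γ.cof = ℵ₀ ∧ ∃ X, OrdDef ∅ X ∧ Seqs γ X ∧ BddBe γ X} κ.ord,
    ∃ κ : Cardinal.{u}, κ.IsRegular ∧ ℵ₀ < κ ∧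
      StatIn {γ : Ordinal.{u} | γ.cof = ℵ₀ ∧ ∃ X, OrdDef ∅ X ∧ Seqs γ X ∧ X.card ≤ ℵ_ 1} κ.ord,
    ∃ T : ZFSet.{u}, Blurry T ∧ T ⊆ (ω_ 1 : Ordinal.{u}).toZFSet ∧
      StatIn {δ : Ordinal.{u} | δ.toZFSet ∈ T} (ω_ 1) ∧
      StatIn {δ : Ordinal.{u} | δ.toZFSet ∉ T} (ω_ 1)] :=
  main h

end Pool.Agent.Results.MP_6024a6_lc.BoundedDefinableFamilies
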