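import Pool.Agent.Helper56.MMD.Bridge
import Pool.Agent.Helper56.MW.Q

/-!
# Martin's Maximum, ordinal definable sets and definable well-orders of the reals

The definitions used in the statement are in `Pool.Agent.Helper56.MMD.Defs` and
`Pool.Agent.Helper56.MW.Base` (`LSet`, `univStructure`).
-/

open FirstOrder FirstOrder.Language Ordinal Cardinal

universe u

namespace Pool.Agent.Results.MP_6024a6_lc.HodDichotomy

open Pool.Agent.Helper56.MMD

/-- **Main theorem.**  Under Martin's Maximum the following are equivalent: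

1. some formula without parameters defines a well-order of the reals;
2. every subset of `ω₁` is ordinal definable;
3. every ordinal below `ω₂` is the image of `ω₁` under an ordinal definable (partially defined) map,
   that is, `HOD` computes `ω₂` correctly;
4. `HOD` computes the successor of some cardinal `l ≥ ℵ₁` correctly;
5. some cardinal `l ≥ ℵ₁` has more than `l` ordinal definable subsets;
6. some ordinal definable set and its complement are both stationary among the ordinals below
   `ω₂` of countable cofinality;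
7. the same holds for some regular cardinal `κ ≥ ω₂` in place of `ω₂`. -/
theorem result (h : MM.{u}) : List.TFAE [
    HasDefWO.{u},
    ∀ x : ZFSet.{u}, x ⊆ (ω_ 1 : Ordinal.{u}).toZFSet → OrdDef ∅ x,
    SuccCorrectOver ∅ (ℵ_ 1 : Cardinal.{u}),
    ∃ l : Cardinal.{u}, ℵ_ 1 ≤ l ∧ SuccCorrectOver ∅ l,
    ∃ l : Cardinal.{u}, ℵ_ 1 ≤ l ∧ Cardinal.lift.{u + 1} l <
      #{s : ZFSet.{u} // OrdDef ∅ s ∧ s ⊆ l.ord.toZFSet},
    ∃ s : ZFSet.{u}, OrdDef ∅ s ∧ Splits (ℵ_ 2) s,
    ∃ κ : Cardinal.{u}, κ.IsRegular ∧ ℵ_ 1 < κ ∧ ∃ s, OrdDef ∅ s ∧ Splits κ s] := by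
  have hD := Pool.Agent.Helper56.MW.dichotomy (mm_imp h)
  simp only [splits_iff]
  exact hD

end Pool.Agent.Results.MP_6024a6_lc.HodDichotomy
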