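import Pool.Agent.Helper56.MMD.Bridge
import Pool.Agent.Helper56.MW.P3

/-!
# Martin's Maximum: a definable well-order of the reals unless all `HOD_A` are far from the universe

The definitions used in the statement are in `Pool.Agent.Helper56.MMD.Defs` and
`Pool.Agent.Helper56.MW.Base` (`LSet`, `univStructure`).
-/

open FirstOrder FirstOrder.Language Ordinal Cardinal

universe u

namespace Pool.Agent.Results.MP_6024a6_lc.HodWithParameters

open Pool.Agent.Helper56.MMD

/-- **Main theorem.**  Assume Martin's Maximum, and let `A` be a set such that

* every set is definable from `A` and finitely many ordinals (`V = HOD_A`), or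
* for arbitrarily large cardinals `l`, every ordinal below `l⁺` is the image of `l` under a
  (partially defined) map definable from `A` and finitely many ordinals, or
* for arbitrarily large regular cardinals `κ`, some set definable from `A` and finitely many
  ordinals splits the ordinals below `κ` of countable cofinality into two stationary sets.

Then the reals have a well-order which is definable without parameters. -/
theorem result (h : MM.{u}) (A : ZFSet.{u})
    (hA : (∀ x : ZFSet.{u}, OrdDef A x) ∨
      (∀ μ : Cardinal.{u}, ∃ l, μ < l ∧ SuccCorrectOver A l) ∨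
      (∀ μ : Cardinal.{u}, ∃ κ, μ < κ ∧ κ.IsRegular ∧ ∃ s, OrdDef A s ∧ Splits κ s)) :
    HasDefWO.{u} := by
  have hM := mm_imp h
  rcases hA with hA | hA | hA
  · exact Pool.Agent.Helper56.MW.hasDefWO_of_hod hM (A := A) hA
  · exact Pool.Agent.Helper56.MW.hasDefWO_of_succCorrectOver hM (A := A) hA
  · refine Pool.Agent.Helper56.MW.hasDefWO_of_param hM (A := A) fun μ => ?_
    obtain ⟨κ, h1, h2, s, h3, h4⟩ := hA μ
    exact ⟨κ, h1, h2, s, h3, splits_iff.1 h4⟩

end Pool.Agent.Results.MP_6024a6_lc.HodWithParameters
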